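import Pool.Agent.QSB.StmtsX4
import Pool.Agent.Helper20_QSB.ALB

set_option autoImplicit false

/-! Squad QSB, row AL4 (copy of ALB by helper20). -/

namespace Pool.Agent.QSB.H49

open Matrix Finset Pool.Agent.QSX Pool.Agent.QSB
open Pool.Agent.QSB.H20

/-- Row AL4. -/
theorem al4 (_bwt : BwtStmt) (trw : TrwStmt) (dlt : Dl4Stmt) : Al4Stmt := by
  intro X Y hS hR hRR hD hrk hW
  obtain ⟨T, P, hTn, hPb, hTi, hPi, hst, hbr⟩ := hW
  obtain ⟨g, hg, hw⟩ := trw X Y T P hTn hPb hPi hst hrk
  refine ⟨T, P, hTn, hPb, hTi, hPi, ?_, hst⟩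
  have hD' := dlt X Y T g hTn hTi hg hbr hw hR hRR hD
  -- root vectors
  have key : ∀ (ρ σ : X.b →ₗ[ℝ] ℝ) (x y : X.n), RtV X ρ x.1 → RtV X σ y.1 →
      T (br X x y) = T x * T y - T y * T x := by
    intro ρ σ x y hx hy
    by_cases hn : NPr ρ σ
    · exact hbr ρ σ hn x y hx.1 hy.1
    · unfold NPr at hn
      rw [not_and_or] at hn
      push Not at hn
      rcases hn with ⟨c, hc⟩ | ⟨c, hc⟩
      · -- `ρ = c • σ`
        rw [hc] at hx
        have h1 := hD' σ c y x hy hx
        have h2 : T (br X y x) = T y * T x - T x * T y := h1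
        rw [br_swap, map_neg] at h2
        rw [← neg_neg (T (br X x y)), h2, neg_sub]
      · rw [hc] at hy
        exact hD' ρ c x y hx hy
  -- left induction
  have key2 : ∀ (σ : X.b →ₗ[ℝ] ℝ) (x y : X.n), RtV X σ y.1 →
      T (br X x y) = T x * T y - T y * T x := by
    intro σ x y hy
    refine Submodule.span_induction
      (p := fun x _ => T (br X x y) = T x * T y - T y * T x) ?_ ?_ ?_ ?_ (span_rs X hS x)
    · rintro z ⟨ρ, hz⟩
      exact key ρ σ z y hz hy
    · rw [br_zero_left, map_zero, Matrix.zero_mul, Matrix.mul_zero, sub_zero]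
    · intro a b _ _ h1 h2
      rw [br_add_left, map_add, map_add, h1, h2]
      noncomm_ring
    · intro c a _ h1
      rw [br_smul_left, map_smul, map_smul, h1, Matrix.smul_mul, Matrix.mul_smul, smul_sub]
  intro x y
  change T (br X x y) = T x * T y - T y * T x
  have key3 : T (br X y x) = T y * T x - T x * T y := by
    refine Submodule.span_induction
      (p := fun y _ => T (br X y x) = T y * T x - T x * T y) ?_ ?_ ?_ ?_ (span_rs X hS y)
    · rintro z ⟨ρ, hz⟩
      have h2 := key2 ρ x z hz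
      rw [br_swap, map_neg, h2, neg_sub]
    · rw [br_zero_left, map_zero, Matrix.zero_mul, Matrix.mul_zero, sub_zero]
    · intro a b _ _ h1 h2
      rw [br_add_left, map_add, map_add, h1, h2]
      noncomm_ring
    · intro c a _ h1
      rw [br_smul_left, map_smul, map_smul, h1, Matrix.smul_mul, Matrix.mul_smul, smul_sub]
  rw [br_swap, map_neg] at key3
  rw [← neg_neg (T (br X x y)), key3, neg_sub]

end Pool.Agent.QSB.H49
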