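import Pool.Agent.QSB.StmtsX4
import Pool.Agent.Helper67_QSB.RRP

set_option autoImplicit false

/-! # Squad QSB, row RQP: the conditions `S4`, `RQ` for products (extension of RRP by helper67) -/

namespace Pool.Agent.QSB.H49

open Matrix Finset Pool.Agent.QSX Pool.Agent.QSN
open Pool.Agent.QSB.H67
open Pool.Agent.QSN.H34 (inL inR wt_L wt_R)

theorem fc_s4 {X Y Z : Dat} (F : Fc X Y Z) (hY : S4 Y) {ρ : X.b →ₗ[ℝ] ℝ} (hk : ρ ∘ₗ F.k = 0)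
    (h1 : IsRt X ρ) :
    Gnd X ρ ∨ (∃ σ, IsRt X σ ∧ ρ = (2 : ℝ) • σ) ∨
    (∀ x y, RtV X ρ x → RtV X ρ y → ∃ c : ℝ, y = c • x) ∨
    (∃ γ, IsRt X γ ∧ IsRt X ((2 : ℝ) • ρ + γ)) ∨
    (∃ γ γ', IsRt X γ ∧ IsRt X γ' ∧ NPr γ ρ ∧ NPr γ' ρ ∧ IsRt X (ρ + γ) ∧ IsRt X (ρ + γ') ∧
      IsRt X (ρ + γ + γ')) ∨
    (∃ β γ, IsRt X β ∧ IsRt X γ ∧ NPr β ρ ∧ NPr γ ρ ∧ NPr γ β ∧ NPr (β + γ) ρ ∧
      IsRt X (ρ + β) ∧ IsRt X (β + γ) ∧ IsRt X (ρ + β + γ) ∧ ¬ IsRt X (β + γ + β)) := by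
  have hd := F.dec ρ hk
  rcases hY (ρ ∘ₗ F.i) (F.dnR hk h1) with h | ⟨σ, hσ, e⟩ | h | ⟨γ, hγ, hs⟩ |
    ⟨γ, γ', hγ, hγ', n1, n2, s1, s2, s3⟩ | ⟨β, γ, hβ, hγ, n1, n2, n3, n4, s1, s2, s3, s4⟩
  · exact Or.inl (F.gnd hk h)
  · refine Or.inr (Or.inl ⟨σ ∘ₗ F.p, F.upR hσ, ?_⟩)
    rw [hd, e, LinearMap.smul_comp]
  · refine Or.inr (Or.inr (Or.inl ?_))
    intro x y hx hy
    obtain ⟨x', rfl, hx'⟩ := F.down ρ x hk hx
    obtain ⟨y', rfl, hy'⟩ := F.down ρ y hk hy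
    obtain ⟨c, hc⟩ := h x' y' hx' hy'
    exact ⟨c, by rw [hc, map_smul]⟩
  · refine Or.inr (Or.inr (Or.inr (Or.inl ⟨γ ∘ₗ F.p, F.upR hγ, ?_⟩)))
    have h2 := F.upR hs
    rw [LinearMap.add_comp, LinearMap.smul_comp, ← hd] at h2
    exact h2
  · refine Or.inr (Or.inr (Or.inr (Or.inr (Or.inl ⟨γ ∘ₗ F.p, γ' ∘ₗ F.p, F.upR hγ, F.upR hγ',
      ?_, ?_, ?_, ?_, ?_⟩))))
    · have h2 := F.npr_up n1
      rw [← hd] at h2
      exact h2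
    · have h2 := F.npr_up n2
      rw [← hd] at h2
      exact h2
    · have h2 := F.upR s1
      rw [LinearMap.add_comp, ← hd] at h2
      exact h2
    · have h2 := F.upR s2
      rw [LinearMap.add_comp, ← hd] at h2
      exact h2
    · have h2 := F.upR s3
      rw [LinearMap.add_comp, LinearMap.add_comp, ← hd] at h2
      exact h2
  · refine Or.inr (Or.inr (Or.inr (Or.inr (Or.inr ⟨β ∘ₗ F.p, γ ∘ₗ F.p, F.upR hβ, F.upR hγ,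
      ?_, ?_, F.npr_up n3, ?_, ?_, ?_, ?_, ?_⟩))))
    · have h2 := F.npr_up n1
      rw [← hd] at h2
      exact h2
    · have h2 := F.npr_up n2
      rw [← hd] at h2
      exact h2
    · have h2 := F.npr_up n4
      rw [LinearMap.add_comp, ← hd] at h2
      exact h2
    · have h2 := F.upR s1
      rw [LinearMap.add_comp, ← hd] at h2
      exact h2
    · have h2 := F.upR s2
      rw [LinearMap.add_comp] at h2
      exact h2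
    · have h2 := F.upR s3
      rw [LinearMap.add_comp, LinearMap.add_comp, ← hd] at h2
      exact h2
    · intro h2
      rw [← LinearMap.add_comp, ← LinearMap.add_comp] at h2
      have h3 := F.dnR (F.upk _) h2
      rw [F.upi] at h3
      exact s4 h3

theorem fc_thr {X Y Z : Dat} (F : Fc X Y Z) (hY : RQ Y) {ρ β γ : X.b →ₗ[ℝ] ℝ}
    (hk : ρ ∘ₗ F.k = 0) (h1 : IsRt X ρ) (h2 : IsRt X ((2 : ℝ) • ρ)) (h3 : IsRt X β)
    (h4 : IsRt X γ) (n1 : NPr β ρ) (n2 : NPr γ ρ) (n3 : NPr γ β) (n4 : NPr (β + γ) ρ)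
    (h5 : IsRt X (ρ + β)) (h6 : IsRt X (β + γ)) (h7 : IsRt X (ρ + β + γ)) :
    IsRt X ((2 : ℝ) • ρ + β) ∨ IsRt X ((2 : ℝ) • ρ + γ) ∨ IsRt X ((2 : ℝ) • ρ + (β + γ)) ∨
      ∀ u w : Matrix (Fin X.m) (Fin X.m) ℝ, RtV X β u → RtV X γ w →
        (w * u - u * w) * u - u * (w * u - u * w) ≠ 0 := by
  have k1 : β ∘ₗ F.k = 0 := F.kof hk h1 one_ne_zero h3 (by rw [one_smul]; exact h5)
  have k2 : γ ∘ₗ F.k = 0 := F.kof k1 h3 one_ne_zero h4 (by rw [one_smul]; exact h6)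
  have h2' := F.dnR (F.ksm hk 2) h2
  have h5' := F.dnR (F.kadd hk k1) h5
  have h6' := F.dnR (F.kadd k1 k2) h6
  have h7' := F.dnR (F.kadd (F.kadd hk k1) k2) h7
  have n4' := F.npr_dn (F.kadd k1 k2) hk n4
  rw [LinearMap.smul_comp] at h2'
  rw [LinearMap.add_comp] at h5' h6' n4'
  rw [LinearMap.add_comp, LinearMap.add_comp] at h7'
  rcases hY.thr (ρ ∘ₗ F.i) (β ∘ₗ F.i) (γ ∘ₗ F.i) (F.dnR hk h1) h2' (F.dnR k1 h3) (F.dnR k2 h4)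
    (F.npr_dn k1 hk n1) (F.npr_dn k2 hk n2) (F.npr_dn k2 k1 n3) n4' h5' h6' h7' with h | h | h | h
  · refine Or.inl (F.bk (F.kadd (F.ksm hk 2) k1) ?_)
    rw [LinearMap.add_comp, LinearMap.smul_comp]
    exact h
  · refine Or.inr (Or.inl (F.bk (F.kadd (F.ksm hk 2) k2) ?_))
    rw [LinearMap.add_comp, LinearMap.smul_comp]
    exact h
  · refine Or.inr (Or.inr (Or.inl (F.bk (F.kadd (F.ksm hk 2) (F.kadd k1 k2)) ?_)))
    rw [LinearMap.add_comp, LinearMap.smul_comp, LinearMap.add_comp]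
    exact h
  · refine Or.inr (Or.inr (Or.inr ?_))
    intro u w hu hw
    obtain ⟨u', rfl, hu'⟩ := F.down β u k1 hu
    obtain ⟨w', rfl, hw'⟩ := F.down γ w k2 hw
    rw [← F.br, ← F.br]
    exact fun h8 => h u' w' hu' hw' (F.inj _ h8)

/-- Row RQP. -/
theorem rqp : RqpStmt := by
  intro Y Z hY hZ
  obtain ⟨-, -, hRR, -⟩ := rrp Y Z hY hZ
  constructor
  · intro s1 s2 ρ h1
    rcases kind hY hZ h1 with hk | hk
    · exact fc_s4 (fcL hY hZ) s1 hk h1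
    · exact fc_s4 (fcR hY hZ) s2 hk h1
  · intro r1 r2
    refine ⟨hRR r1.rr r2.rr, ?_⟩
    intro ρ β γ h1 h2 h3 h4 n1 n2 n3 n4 h5 h6 h7
    rcases kind hY hZ h1 with hk | hk
    · exact fc_thr (fcL hY hZ) r1 hk h1 h2 h3 h4 n1 n2 n3 n4 h5 h6 h7
    · exact fc_thr (fcR hY hZ) r2 hk h1 h2 h3 h4 n1 n2 n3 n4 h5 h6 h7

end Pool.Agent.QSB.H49
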